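import Pool.Agent.H284_heavy.Final

/-!
# A heavy multinet that is not induced from any arrangement `Q_n`

The example has 17 lines in three blocks of degree 6. With `w = y + z` the block forms are

* `F = x² (3z - 5y - 60x) (3z - 5y + 60x) (y + 3z) (5y + z)`,
* `G = (y² - 225x²) (z² - 900x²) (w² - 16x²)`,
* `H = (y² - 36x²) (z² - 25x²) (w² - 3600x²)`,

and `G - H = -7 F`.

* Not induced: the four simple lines of the first block meet the double line `x = 0` in three
  points. In a multinet induced from `Q_n` the other lines of the block of a double line meet it in
  at most two points (`Core.lean`, `Main.lean`).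
* `F`, `G`, `H` are all completely reducible members of the pencil, up to scalars
  (`Third.lean`).
* Connectedness of the fibers: if `P = A B` is another member and the curves `A`, `B` meet only in the
  base, then they meet only on `x = 0` (the members are smooth at the other base points,
  `Smooth.lean`), so some power of `x` lies in the ideal `(A, B)`; comparing the coefficients of low
  powers of `x` the exponent can be lowered to two (`Local.lean`), and `x²` is not in the
  ideal because `deg A + deg B = 6` (`Ceva.lean`).
-/

set_option autoImplicit false

namespace Pool.Agent.Results.MP_7bc845_ag.HeavyNotInduced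

open Pool.Agent.H284_heavy

/-- **There is a heavy multinet that is not induced from any `Q_n`.** It is a multinet both in
the sense of pencils of Ceva type and in the combinatorial sense of Falk and Yuzvinsky, with the same
base points. -/
theorem result : ∃ (M : MultiArrangement 3 17)
    (W : Submodule ℂ (MvPolynomial (Fin 3) ℂ)),
    IsCevaMultinet 3 6 M W ∧ IsMultinet 3 6 M ∧
      (∀ v, v ≠ 0 → (IsBase M v ↔ ∀ P ∈ W, MvPolynomial.eval v P = 0)) ∧
      IsHeavy M ∧ ∀ n : ℕ, 1 ≤ n → ¬ InducedFrom n M :=
  ⟨M, W0, isCevaMultinet, isMultinet, isPencil.base, ⟨0, by decide⟩,
    fun _ hn => not_induced hn⟩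

end Pool.Agent.Results.MP_7bc845_ag.HeavyNotInduced
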